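import Pool.Agent.H73.LPC.Stmts
import Pool.Agent.H79.TC.Osg

/-! Row SM2 of the board lpc: holomorphic maps of two variables are smooth. -/

set_option autoImplicit false

open Set Filter Topology MeasureTheory Metric

namespace Pool.LPC

open Pool.PHS

theorem SM2_thm : SM2Stmt := by
  intro F _ _ _ G U hU hG
  refine ⟨?_, Pool.Agent.H63.TC.osg_fderiv_apply hU hG (1, 0),
    Pool.Agent.H63.TC.osg_fderiv_apply hU hG (0, 1)⟩
  have h := Pool.Agent.H63.TC.osg_contDiffOn hU hG 2
  simpa using h

end Pool.LPC
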